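import Mathlib

/-!
MP_a4f561_co, helper26's proof: the rounds (helper33).
Every vertex `v` lives on `[b v, t v]`; `<` is a linear order on all vertices.  The rounds are
numbered by `r`; two different vertices of the same round are separated either by a time at which
only vertices of earlier rounds are alive, or by a vertex of an earlier round at a common time.
-/

set_option autoImplicit false

namespace Pool.Agent.W_a4f561_h33

/-- Between two numbers of the same 2-adic valuation there is one with a larger valuation. -/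
theorem val_between {a c : ℕ} (ha : 0 < a) (hac : a < c)
    (h : padicValNat 2 a = padicValNat 2 c) :
    ∃ m, a < m ∧ m < c ∧ padicValNat 2 a < padicValNat 2 m := by
  have : Fact (Nat.Prime 2) := ⟨Nat.prime_two⟩
  obtain ⟨k, hk⟩ : ∃ k, padicValNat 2 a = k := ⟨_, rfl⟩
  rw [hk] at h ⊢
  have ha1 : 2 ^ k ∣ a := by rw [← hk]; exact pow_padicValNat_dvd
  have hc1 : 2 ^ k ∣ c := by rw [h]; exact pow_padicValNat_dvd
  have ha2 : ¬ 2 ^ (k + 1) ∣ a := by
    rw [← hk]; exact pow_succ_padicValNat_not_dvd ha.ne'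
  have hc2 : ¬ 2 ^ (k + 1) ∣ c := by
    rw [h]; exact pow_succ_padicValNat_not_dvd (by omega)
  obtain ⟨x, rfl⟩ := ha1
  obtain ⟨y, rfl⟩ := hc1
  have hp : 0 < 2 ^ k := by positivity
  have hx : ¬ 2 ∣ x := by
    rintro ⟨z, rfl⟩
    exact ha2 ⟨z, by ring⟩
  have hy : ¬ 2 ∣ y := by
    rintro ⟨z, rfl⟩
    exact hc2 ⟨z, by ring⟩
  have hxy : x < y := Nat.lt_of_mul_lt_mul_left hac
  have h2 : x + 1 < y := by omega
  refine ⟨2 ^ k * (x + 1), by nlinarith, Nat.mul_lt_mul_of_pos_left h2 hp, ?_⟩
  have hd : 2 ^ (k + 1) ∣ 2 ^ k * (x + 1) := by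
    obtain ⟨z, hz⟩ : 2 ∣ x + 1 := by omega
    exact ⟨z, by rw [hz]; ring⟩
  have := (padicValNat_dvd_iff_le (p := 2) (by positivity : 2 ^ k * (x + 1) ≠ 0)).1 hd
  omega

/-- The valuation is at most the logarithm. -/
theorem val_le_log {m M : ℕ} (hm : 0 < m) (hM : m ≤ M) : padicValNat 2 m ≤ Nat.log 2 M := by
  have : Fact (Nat.Prime 2) := ⟨Nat.prime_two⟩
  have h1 : 2 ^ padicValNat 2 m ≤ m := Nat.le_of_dvd hm pow_padicValNat_dvd
  exact (Nat.le_log_iff_pow_le (by norm_num) (by omega)).2 (h1.trans hM)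

variable {V : Type} [Fintype V] [LinearOrder V]

omit [Fintype V] [LinearOrder V] in
/-- A time of the life of `v` with the largest valuation. -/
theorem exists_top (b t : V → ℕ) (hbt : ∀ v, b v ≤ t v) (v : V) :
    ∃ T, b v ≤ T ∧ T ≤ t v ∧ ∀ s, b v ≤ s → s ≤ t v → padicValNat 2 (s + 1) ≤ padicValNat 2 (T + 1) := by
  obtain ⟨T, hT, h⟩ := Finset.exists_max_image (Finset.Icc (b v) (t v))
    (fun s => padicValNat 2 (s + 1)) ⟨b v, Finset.mem_Icc.2 ⟨le_rfl, hbt v⟩⟩
  rw [Finset.mem_Icc] at hT
  exact ⟨T, hT.1, hT.2, fun s h1 h2 => h s (Finset.mem_Icc.2 ⟨h1, h2⟩)⟩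

/-- The rounds. -/
theorem rounds (b t : V → ℕ) (hbt : ∀ v, b v ≤ t v) (N : ℕ) (hN : ∀ v, t v ≤ N) :
    ∃ r : V → ℕ, (∀ v, r v < (Nat.log 2 (N + 1) + 1) * (Nat.log 2 (Fintype.card V) + 1)) ∧
      ∀ v w, v ≠ w → r v = r w →
        (∃ τ, (t v < τ ∧ τ < b w ∨ t w < τ ∧ τ < b v) ∧
          ∀ u, b u ≤ τ → τ ≤ t u → r u < r v) ∨
        (∃ τ u, b v ≤ τ ∧ τ ≤ t v ∧ b w ≤ τ ∧ τ ≤ t w ∧ b u ≤ τ ∧ τ ≤ t u ∧
          (v < u ∧ u < w ∨ w < u ∧ u < v) ∧ r u < r v) := by
  classical
  choose T hT1 hT2 hT3 using exists_top b t hbt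
  -- the position of a vertex in the list of its top time
  let W : ℕ → Finset V := fun τ => Finset.univ.filter (fun u => b u ≤ τ ∧ τ ≤ t u)
  let pos : ℕ → V → ℕ := fun τ v => ((W τ).filter (fun u => u ≤ v)).card
  let q : V → ℕ := fun v => pos (T v) v
  have hvW : ∀ v, v ∈ W (T v) := fun v => by
    simp only [W, Finset.mem_filter, Finset.mem_univ, true_and]
    exact ⟨hT1 v, hT2 v⟩
  have hqpos : ∀ v, 0 < q v := fun v =>
    Finset.card_pos.2 ⟨v, Finset.mem_filter.2 ⟨hvW v, le_rfl⟩⟩
  have hqle : ∀ v, q v ≤ Fintype.card V := fun v => Finset.card_le_univ _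
  set A := Nat.log 2 (N + 1) with hA
  set B := Nat.log 2 (Fintype.card V) with hB
  let x : V → ℕ := fun v => padicValNat 2 (T v + 1)
  let y : V → ℕ := fun v => padicValNat 2 (q v)
  have hx : ∀ v, x v ≤ A := fun v => val_le_log (Nat.succ_pos _) (by have := hT2 v; have := hN v; omega)
  have hy : ∀ v, y v ≤ B := fun v => val_le_log (hqpos v) (hqle v)
  let r : V → ℕ := fun v => (A - x v) * (B + 1) + (B - y v)
  have hlt1 : ∀ u v, x v < x u → r u < r v := by
    intro u v h
    have h1 := hx u
    have h2 : A - x u + 1 ≤ A - x v := by omega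
    have h3 : (A - x u + 1) * (B + 1) ≤ (A - x v) * (B + 1) := Nat.mul_le_mul_right _ h2
    have h4 : (A - x u + 1) * (B + 1) = (A - x u) * (B + 1) + (B + 1) := by ring
    show (A - x u) * (B + 1) + (B - y u) < (A - x v) * (B + 1) + (B - y v)
    omega
  have hlt2 : ∀ u v, x v = x u → y v < y u → r u < r v := by
    intro u v h h'
    have h1 := hy u
    show (A - x u) * (B + 1) + (B - y u) < (A - x v) * (B + 1) + (B - y v)
    rw [h]
    omega
  have heq : ∀ v w, r v = r w → x v = x w ∧ y v = y w := by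
    intro v w h
    have h1 : x v = x w := by
      rcases lt_trichotomy (x v) (x w) with h2 | h2 | h2
      · exact absurd h (hlt1 w v h2).ne'
      · exact h2
      · exact absurd h (hlt1 v w h2).ne
    refine ⟨h1, ?_⟩
    rcases lt_trichotomy (y v) (y w) with h2 | h2 | h2
    · exact absurd h (hlt2 w v h1 h2).ne'
    · exact h2
    · exact absurd h (hlt2 v w h1.symm h2).ne
  refine ⟨r, ?_, ?_⟩
  · intro v
    have h1 : (A - x v) * (B + 1) ≤ A * (B + 1) := Nat.mul_le_mul_right _ (Nat.sub_le _ _)
    have h2 : (A + 1) * (B + 1) = A * (B + 1) + (B + 1) := by ring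
    show (A - x v) * (B + 1) + (B - y v) < (A + 1) * (B + 1)
    omega
  · -- separation in time
    have key1 : ∀ v w, r v = r w → T v < T w →
        ∃ τ, t v < τ ∧ τ < b w ∧ ∀ u, b u ≤ τ → τ ≤ t u → r u < r v := by
      intro v w h hT
      obtain ⟨m, hm1, hm2, hm3⟩ := val_between (Nat.succ_pos (T v)) (by omega : T v + 1 < T w + 1)
        (heq v w h).1
      obtain ⟨τ, rfl⟩ : ∃ τ, m = τ + 1 := ⟨m - 1, by omega⟩
      have hm4 : padicValNat 2 (T w + 1) < padicValNat 2 (τ + 1) := by
        have := (heq v w h).1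
        show x w < _
        rw [← this]
        exact hm3
      refine ⟨τ, ?_, ?_, ?_⟩
      · by_contra hc
        have := hT3 v τ (by have := hT1 v; omega) (by omega)
        exact absurd this (not_le.2 hm3)
      · by_contra hc
        have := hT3 w τ (by omega) (by have := hT2 w; omega)
        exact absurd this (not_le.2 hm4)
      · intro u hu1 hu2
        exact hlt1 u v (lt_of_lt_of_le hm3 (hT3 u τ hu1 hu2))
    -- separation by a vertex
    have key2 : ∀ v w, r v = r w → T v = T w → v < w →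
        ∃ u, b u ≤ T v ∧ T v ≤ t u ∧ v < u ∧ u < w ∧ r u < r v := by
      intro v w h hT hvw
      have hww : w ∈ W (T v) := hT ▸ hvW w
      have hqw : q w = pos (T v) w := by show pos (T w) w = _; rw [hT]
      have hsub : (W (T v)).filter (fun u => u ≤ v) ⊆ (W (T v)).filter (fun u => u ≤ w) := by
        intro u hu
        rw [Finset.mem_filter] at hu ⊢
        exact ⟨hu.1, hu.2.trans hvw.le⟩
      have hq : q v < q w := by
        rw [hqw]
        refine Finset.card_lt_card ⟨hsub, fun hc => ?_⟩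
        have := hc (Finset.mem_filter.2 ⟨hww, le_rfl⟩)
        rw [Finset.mem_filter] at this
        exact absurd this.2 (not_le.2 hvw)
      obtain ⟨m, hm1, hm2, hm3⟩ := val_between (hqpos v) hq (heq v w h).2
      -- a vertex at position m
      obtain ⟨u, huW, hu⟩ : ∃ u ∈ W (T v), pos (T v) u = m := by
        have hk : m - 1 < (W (T v)).card := by
          have : q w ≤ (W (T v)).card := by
            rw [hqw]; exact Finset.card_le_card (Finset.filter_subset _ _)
          omega
        let u := (W (T v)).orderEmbOfFin rfl ⟨m - 1, hk⟩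
        refine ⟨u, Finset.orderEmbOfFin_mem _ rfl _, ?_⟩
        have h1 : (W (T v)).filter (fun z => z ≤ u) =
            (Finset.univ.filter (fun i : Fin (W (T v)).card => i ≤ ⟨m - 1, hk⟩)).map
              ((W (T v)).orderEmbOfFin rfl).toEmbedding := by
          ext z
          simp only [Finset.mem_filter, Finset.mem_map, Finset.mem_univ, true_and]
          constructor
          · rintro ⟨hz, hzu⟩
            have : z ∈ Set.range ((W (T v)).orderEmbOfFin rfl) := by
              rw [Finset.range_orderEmbOfFin]; exact hz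
            obtain ⟨i, rfl⟩ := this
            refine ⟨i, ?_, rfl⟩
            exact ((W (T v)).orderEmbOfFin rfl).le_iff_le.1 hzu
          · rintro ⟨i, hi, rfl⟩
            exact ⟨Finset.orderEmbOfFin_mem _ rfl _, ((W (T v)).orderEmbOfFin rfl).le_iff_le.2 hi⟩
        show ((W (T v)).filter (fun z => z ≤ u)).card = m
        rw [h1, Finset.card_map]
        have h2 : (Finset.univ.filter (fun i : Fin (W (T v)).card => i ≤ ⟨m - 1, hk⟩)) =
            Finset.Iic ⟨m - 1, hk⟩ := by ext i; simp
        rw [h2, Fin.card_Iic]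
        show m - 1 + 1 = m
        omega
      have hu1 : b u ≤ T v ∧ T v ≤ t u := by
        simpa only [W, Finset.mem_filter, Finset.mem_univ, true_and] using huW
      have hvu : v < u := by
        by_contra hc
        have : (W (T v)).filter (fun z => z ≤ u) ⊆ (W (T v)).filter (fun z => z ≤ v) := by
          intro z hz
          rw [Finset.mem_filter] at hz ⊢
          exact ⟨hz.1, hz.2.trans (not_lt.1 hc)⟩
        have := Finset.card_le_card this
        have h3 : pos (T v) u ≤ q v := this
        omega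
      have huw : u < w := by
        by_contra hc
        have : (W (T v)).filter (fun z => z ≤ w) ⊆ (W (T v)).filter (fun z => z ≤ u) := by
          intro z hz
          rw [Finset.mem_filter] at hz ⊢
          exact ⟨hz.1, hz.2.trans (not_lt.1 hc)⟩
        have := Finset.card_le_card this
        have h3 : pos (T v) w ≤ pos (T v) u := this
        omega
      refine ⟨u, hu1.1, hu1.2, hvu, huw, ?_⟩
      have hxu : x v ≤ x u := hT3 u (T v) hu1.1 hu1.2
      rcases hxu.lt_or_eq with h4 | h4
      · exact hlt1 u v h4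
      · -- the top time of u is the same
        have hTu : T u = T v := by
          rcases lt_trichotomy (T u) (T v) with h5 | h5 | h5
          · exfalso
            obtain ⟨m', h6, h7, h8⟩ := val_between (Nat.succ_pos (T u))
              (by omega : T u + 1 < T v + 1) h4.symm
            obtain ⟨τ, rfl⟩ : ∃ τ, m' = τ + 1 := ⟨m' - 1, by omega⟩
            have := hT3 u τ (by have := hT1 u; omega) (by omega)
            exact absurd this (not_le.2 h8)
          · exact h5
          · exfalso
            obtain ⟨m', h6, h7, h8⟩ := val_between (Nat.succ_pos (T v))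
              (by omega : T v + 1 < T u + 1) h4
            obtain ⟨τ, rfl⟩ : ∃ τ, m' = τ + 1 := ⟨m' - 1, by omega⟩
            have h9 : x u < padicValNat 2 (τ + 1) := by rw [← h4]; exact h8
            have := hT3 u τ (by omega) (by have := hT2 u; omega)
            exact absurd this (not_le.2 h9)
        have hqu : q u = m := by show pos (T u) u = m; rw [hTu]; exact hu
        refine hlt2 u v h4 ?_
        show padicValNat 2 (q v) < padicValNat 2 (q u)
        rw [hqu]
        exact hm3
    intro v w hne h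
    rcases lt_trichotomy (T v) (T w) with h1 | h1 | h1
    · obtain ⟨τ, h2, h3, h4⟩ := key1 v w h h1
      exact Or.inl ⟨τ, Or.inl ⟨h2, h3⟩, h4⟩
    · rcases lt_or_gt_of_ne hne with h2 | h2
      · obtain ⟨u, h3, h4, h5, h6, h7⟩ := key2 v w h h1 h2
        exact Or.inr ⟨T v, u, hT1 v, hT2 v, h1 ▸ hT1 w, h1 ▸ hT2 w, h3, h4, Or.inl ⟨h5, h6⟩, h7⟩
      · obtain ⟨u, h3, h4, h5, h6, h7⟩ := key2 w v h.symm h1.symm h2
        refine Or.inr ⟨T w, u, h1 ▸ hT1 v, h1 ▸ hT2 v, hT1 w, hT2 w, h3, h4, Or.inr ⟨h5, h6⟩, ?_⟩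
        rw [h]; exact h7
    · obtain ⟨τ, h2, h3, h4⟩ := key1 w v h.symm h1
      refine Or.inl ⟨τ, Or.inr ⟨h2, h3⟩, fun u h5 h6 => ?_⟩
      rw [h]; exact h4 u h5 h6

end Pool.Agent.W_a4f561_h33
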