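import Pool.Agent.W_a4f561_h33.Rel33
import Pool.Agent.W_a4f561_P97.Cat97

/-!
MP_a4f561_co, polylog: the strong lens (helper33). A vertex strictly between the phase and a vertex with a path in the new
cell to the phase is in the new cell or on the phase. This is the field `bt` of `NL`.
-/

set_option autoImplicit false

namespace Pool.Agent.W_a4f561_h33

open Pool.Agent.W_a4f561_h26
open Pool.Agent.W_a4f561_P73
open Pool.Agent.W_a4f561_P25
open Pool.Agent.W_a4f561_P97 (RP)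

variable {V : Type} {G : Bars V}

/-- Two choice functions which agree on the hosts of `z` up to `tl` have the same hosts. -/
theorem host_same {π π' : V → V} (hπ : Ch G π) (hπ' : Ch G π') {z : V} {tl : ℕ} (hN : tl ≤ G.N)
    (h : ∀ τ, τ < tl → π' (host G π z τ) = π (host G π z τ)) {τ : ℕ} (hτ : τ ≤ tl) :
    host G π' z τ = host G π z τ := by
  induction τ with
  | zero => rw [host_self hπ (Nat.zero_le _), host_self hπ' (Nat.zero_le _)]
  | succ n ih =>
    rcases Nat.lt_or_ge (G.t z) (n + 1) with h1 | h1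
    · have hb : G.b z ≤ n := (G.bt z).trans (by omega)
      have hn : n + 1 ≤ G.N := hτ.trans hN
      have e := ih (by omega)
      rcases host_step hπ hb hn with ⟨h2, h3⟩ | ⟨h2, h3⟩ <;> rcases host_step hπ' hb hn with ⟨h4, h5⟩ | ⟨h4, h5⟩
      · rw [h2, h4, e]
      · rw [e] at h5
        omega
      · rw [e] at h5
        omega
      · rw [h2, h4, e, h n (by omega)]
    · rw [host_self hπ h1, host_self hπ' h1]

/-- The vertices of the route of `z` up to time `tl` are its hosts. -/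
theorem orb_host {π : V → V} (hπ : Ch G π) {z v : V} (h : Orb π z v) {tl : ℕ} (hN : tl ≤ G.N) (ht : G.t v ≤ tl) :
    host G π z (G.t v) = v :=
  host_t hπ h ⟨fun e => by
    rw [e] at ht
    have := G.t_bot
    omega, fun e => by
    rw [e] at ht
    have := G.t_top
    omega⟩

theorem inn_of_le {v : V} (h : G.t v ≤ G.N) : G.inn v :=
  ⟨fun e => by
    rw [e] at h
    have := G.t_bot
    omega, fun e => by
    rw [e] at h
    have := G.t_top
    omega⟩

/-- A vertex of the phase strictly between the host and `q` dies before the path of `q` arrives at the phase. -/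
theorem phase_first {π ρ : V → V} (hπ : Ch G π) (hρ : Ch G ρ) {z q u v : V} {τ : ℕ} (hz : G.b z ≤ τ)
    (hq : G.al q τ) (hu : G.al u τ) (hv : Orb π z v) (hqv : Orb ρ q v) (hvN : G.t v ≤ G.N)
    (r1 : G.r (host G π z τ) < G.r u) (r2 : G.r u < G.r q) : G.t u ≤ G.t v := by
  by_contra hc
  rw [not_le] at hc
  have hτv : τ ≤ G.t v := hq.2.trans (orb_t hρ hqv)
  have h1 := (order_bar hπ hz hu.1 hτv hvN hc.le).1 r1
  rw [orb_host hπ hv hvN le_rfl] at h1
  have h2 := (order_bar hρ hq.1 hu.1 hτv hvN hc.le).2.1 (by rw [host_self hρ hq.2]; exact r2)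
  rw [orb_host hρ hqv hvN le_rfl] at h2
  have h3 : G.r u = G.r v := le_antisymm h2 h1
  rw [G.r_inj h3] at hc
  exact lt_irrefl _ hc

/-- The strong lens. -/
theorem RelH.strong {σ₀ σ σ' : St V} {z : V} {tl : ℕ} (h : RelH G σ σ' z tl) (g₀ : Gr σ₀ σ) {D₀ D₁ BS : Set V}
    {si e : ℕ} (hL : LENS G σ₀ D₀ si) (hph : ∀ τ, G.b z ≤ τ → τ ≤ tl → host G σ.pi z τ ∈ D₀)
    (hSB : ∀ v ∈ D₀, v ∈ σ.S → Orb σ.pi z v)
    (hD₁ : ∀ v, v ∈ D₁ ↔ (v ∈ D₀ ∧ v ∉ σ.S) ∨ Area G σ.pi z tl v) (he : e ≤ tl)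
    (hBS : ∀ v, v ∈ BS ↔ Orb σ.pi z v ∧ G.t v ≤ e) {q : V} {τ : ℕ} {u : V} (hq : RP G σ' D₁ BS q) (hs : si < τ)
    (hzτ : G.b z ≤ τ) (hqa : G.al q τ) (hua : G.al u τ) (r1 : G.r (host G σ.pi z τ) < G.r u)
    (r2 : G.r u < G.r q) : u ∈ D₁ ∨ u ∈ BS := by
  obtain ⟨π, hπ, v, hvB, hqv, hpath⟩ := hq
  obtain ⟨hv, hve⟩ := (hBS v).1 hvB
  have hvtl : G.t v ≤ tl := hve.trans he
  have hvN : G.t v ≤ G.N := hvtl.trans h.tN
  have hτv : τ ≤ G.t v := hqa.2.trans (orb_t hπ.1 hqv)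
  have hfirst := phase_first h.ch hπ.1 hzτ hqa hua hv hqv hvN r1 r2
  have hD₁S : ∀ v ∈ D₁, v ∉ σ.S := fun v hv => ((hD₁ v).1 hv).elim (fun h1 => h1.2) (h.out v)
  have hD₁i : ∀ v ∈ D₁, G.inn v := fun v hv => h.inn (hD₁S v hv)
  by_cases hA : ∃ v', Orb π q v' ∧ G.t v' < G.t v ∧ Area G σ.pi z tl v'
  · obtain ⟨v', v1, v2, v3⟩ := hA
    have p : PD G D₁ π q v' := ⟨v1, fun x h1 h2 => hpath x h1 (h2.trans_lt v2)⟩
    rcases v3 with ⟨y, a, c, hA⟩ | ⟨y, a, c, hA⟩
    · have hAq := ar_back h.ch h.tN h.ph hD₁S hD₁i hπ.1 p hA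
      obtain ⟨_, k1, k2, k3⟩ := hAq.p0 h.ch h.tN
      rcases between h.ch h.tN hAq.2.1 hAq.2.2.1 (k1.le.trans hqa.1) (hqa.2.trans k2.le) hua r1
        (r2.trans (k3 τ hqa).2) with h3 | h3
      · exact Or.inl ((hD₁ u).2 (Or.inr (Or.inl ⟨y, a, c, h3⟩)))
      · exact Or.inr ((hBS u).2 ⟨h3.1, hfirst.trans hve⟩)
    · have hAq := ar_back (G := G.mir) h.ch.mir25 h.tN h.ph hD₁S (fun v hv => G.mir_inn.2 (hD₁i v hv))
        hπ.1.mir25 p hA
      obtain ⟨_, k1, k2, k3⟩ := hAq.p0 (G := G.mir) h.ch.mir25 h.tN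
      exfalso
      have h4 := (k3 τ hqa).1
      have h5 : G.M - G.r (host G σ.pi z τ) < G.M - G.r q := h4
      omega
  · push Not at hA
    have hmem : ∀ x, Orb σ.pi z x → G.t x ≤ tl → G.b z ≤ G.t x → x ∈ D₀ := by
      intro x h1 h2 h3
      have := hph (G.t x) h3 h2
      rwa [orb_host h.ch h1 h.tN h2] at this
    have hzv : G.b z ≤ G.t v := hzτ.trans hτv
    have p : PD G D₀ π q v := by
      refine ⟨hqv, fun x h1 h2 => ?_⟩
      rcases h2.lt_or_eq with h3 | h3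
      · rcases (hD₁ x).1 (hpath x h1 h3) with h4 | h4
        · exact h4.1
        · exact absurd h4 (hA x h1 h3)
      · rw [G.t_inj h3]
        exact hmem v hv hvtl hzv
    have hho := host_orb G σ.pi z τ
    have p' : PD G D₀ σ.pi (host G σ.pi z τ) v := by
      refine ⟨orb_comp h.ch hho hv (host_t_le h.ch hv (inn_of_le hvN) hzτ hτv), fun x h1 h2 => ?_⟩
      refine hmem x (orb_trans hho h1) (h2.trans hvtl) ?_
      exact (hzτ.trans (host_al h.ch hzτ (hτv.trans hvN)).2).trans (orb_t h.ch h1)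
    have hu := hL τ hs (host G σ.pi z τ) u q v σ.pi π ⟨h.ch, g₀.pi⟩ (g₀.fin (h.gr.fin hπ))
      (host_al h.ch hzτ (hτv.trans hvN)) hua hqa r1 r2 p' p
    by_cases huS : u ∈ σ.S
    · exact Or.inr ((hBS u).2 ⟨hSB u hu huS, hfirst.trans hve⟩)
    · exact Or.inl ((hD₁ u).2 (Or.inl ⟨hu, huS⟩))

/-- The hosts up to `tl` are the same in the new state. -/
theorem RelH.host_eq {σ σ' : St V} {z : V} {tl : ℕ} (h : RelH G σ σ' z tl) (hch : Ch G σ'.pi) {τ : ℕ} (hτ : τ ≤ tl) :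
    host G σ'.pi z τ = host G σ.pi z τ :=
  host_same h.ch hch h.tN (fun τ h1 => h.pi _ (Or.inl (h.ph τ h1.le))) hτ

/-- The vertices of the phase are the same in the new state. -/
theorem RelH.orb_iff {σ σ' : St V} {z : V} {tl : ℕ} (h : RelH G σ σ' z tl) (hch : Ch G σ'.pi) {v : V}
    (ht : G.t v ≤ tl) : Orb σ'.pi z v ↔ Orb σ.pi z v := by
  constructor
  · intro h1
    have h2 := orb_host hch h1 h.tN ht
    rw [h.host_eq hch ht] at h2
    rw [← h2]
    exact host_orb G σ.pi z _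
  · intro h1
    have h2 := orb_host h.ch h1 h.tN ht
    rw [← h.host_eq hch ht] at h2
    rw [← h2]
    exact host_orb G σ'.pi z _

end Pool.Agent.W_a4f561_h33
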