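import Pool.Agent.W_a4f561_P25.Area

/-!
MP_a4f561_co, polylog (helper1's text, section 4): what happens to LENS when a phase is drawn and when its areas are
relabelled (helper33). The state may be in the middle of a piece: the drawn set `σ.S` need not be closed; only the phase
(route of `z` up to `tl`) has to be drawn.
-/

set_option autoImplicit false

namespace Pool.Agent.W_a4f561_h33

open Pool.Agent.W_a4f561_h26
open Pool.Agent.W_a4f561_P73
open Pool.Agent.W_a4f561_P25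

variable {V : Type} {G : Bars V}

/-! ### Paths in `D` -/

theorem pd_mem {D : Set V} {π : V → V} {x w : V} (p : PD G D π x w) : w ∈ D := p.2 w p.1 le_rfl

theorem pd_start {D : Set V} {π : V → V} (hπ : Ch G π) {x w : V} (p : PD G D π x w) : x ∈ D :=
  p.2 x (orb_refl _ _) (orb_t hπ p.1)

theorem pd_mono {D D' : Set V} (h : D ⊆ D') {π : V → V} {x w : V} (p : PD G D π x w) : PD G D' π x w :=
  ⟨p.1, fun v h1 h2 => h (p.2 v h1 h2)⟩

theorem pd_tail {D : Set V} {π : V → V} (hπ : Ch G π) {x v w : V} (p : PD G D π x w) (hv : Orb π x v)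
    (ht : G.t v ≤ G.t w) : PD G D π v w :=
  ⟨orb_comp hπ hv p.1 ht, fun _ h1 h2 => p.2 _ (orb_trans hv h1) h2⟩

theorem pd_init {D : Set V} {π : V → V} {x v w : V} (p : PD G D π x w) (hv : Orb π x v)
    (ht : G.t v ≤ G.t w) : PD G D π x v :=
  ⟨hv, fun _ h1 h2 => p.2 _ h1 (h2.trans ht)⟩

/-- The hosts of a path up to `w` are before `w`. -/
theorem host_t_le {π : V → V} (hπ : Ch G π) {x w : V} (h : Orb π x w) (hw : G.inn w) {s : ℕ}
    (hx : G.b x ≤ s) (hs : s ≤ G.t w) : G.t (host G π x s) ≤ G.t w := by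
  have hwN : G.t w ≤ G.N := (G.t_in w hw.1 hw.2).le
  have h1 := host_add hπ (u := x) hx hs hwN
  rw [host_t hπ h hw] at h1
  have h2 := host_orb G π (host G π x s) (G.t w)
  rw [h1] at h2
  exact orb_t hπ h2

theorem pd_host {D : Set V} {π : V → V} (hπ : Ch G π) {x w : V} (p : PD G D π x w) (hw : G.inn w) {s : ℕ}
    (hx : G.b x ≤ s) (hs : s ≤ G.t w) : host G π x s ∈ D :=
  p.2 _ (host_orb G π x s) (host_t_le hπ p.1 hw hx hs)

/-- A route which avoids `D` stays strictly between two paths in `D`. -/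
theorem stays {D : Set V} {π π' ρ : V → V} (hπ : Ch G π) (hπ' : Ch G π') (hρ : Ch G ρ) {x z x' w : V} (hw : G.inn w)
    {τ s : ℕ} (hx : G.al x τ) (hz : G.al z τ) (hx' : G.al x' τ) (h1 : G.r x < G.r z)
    (h2 : G.r z < G.r x') (p : PD G D π x w) (p' : PD G D π' x' w) (hτs : τ ≤ s) (hsw : s ≤ G.t w)
    (ho : ∀ i, τ ≤ i → i ≤ s → host G ρ z i ∉ D) :
    G.r (host G π x s) < G.r (host G ρ z s) ∧ G.r (host G ρ z s) < G.r (host G π' x' s) := by
  have hwN : G.t w ≤ G.N := (G.t_in w hw.1 hw.2).le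
  have e1 : host G π x τ = x := host_self hπ hx.2
  have e2 : host G ρ z τ = z := host_self hρ hz.2
  have e3 : host G π' x' τ = x' := host_self hπ' hx'.2
  constructor
  · by_contra hc
    obtain ⟨i, s1, s2, s3⟩ := order hπ hρ hx.1 hz.1 hτs (hsw.trans hwN) (by rw [e1, e2]; exact h1) (not_lt.1 hc)
    exact ho i s1.le s2 (s3 ▸ pd_host hπ p hw (hx.1.trans s1.le) (s2.trans hsw))
  · by_contra hc
    obtain ⟨i, s1, s2, s3⟩ := order hρ hπ' hz.1 hx'.1 hτs (hsw.trans hwN) (by rw [e2, e3]; exact h2) (not_lt.1 hc)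
    exact ho i s1.le s2 (s3.symm ▸ pd_host hπ' p' hw (hx'.1.trans s1.le) (s2.trans hsw))

/-- A route which avoids `D` till `t w` is not strictly between two paths in `D` with the end `w`. -/
theorem not_between {D : Set V} {π π' ρ : V → V} (hπ : Ch G π) (hπ' : Ch G π') (hρ : Ch G ρ) {x z x' w : V}
    (hw : G.inn w) {τ : ℕ} (hx : G.al x τ) (hz : G.al z τ) (hx' : G.al x' τ) (h1 : G.r x < G.r z)
    (h2 : G.r z < G.r x') (p : PD G D π x w) (p' : PD G D π' x' w)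
    (ho : ∀ i, τ ≤ i → i ≤ G.t w → host G ρ z i ∉ D) : False := by
  obtain ⟨k1, k2⟩ := stays hπ hπ' hρ hw hx hz hx' h1 h2 p p' (hx.2.trans (orb_t hπ p.1)) le_rfl ho
  rw [host_t hπ p.1 hw] at k1
  rw [host_t hπ' p'.1 hw] at k2
  exact lt_irrefl _ (k1.trans k2)

/-- The state grows: more is drawn or declared. -/
structure Gr (σ σ' : St V) : Prop where
  S : σ.S ⊆ σ'.S
  SD : σ.S ∪ σ.Dec ⊆ σ'.S ∪ σ'.Dec
  pi : ∀ v ∈ σ.S ∪ σ.Dec, σ'.pi v = σ.pi v

theorem Gr.fin {σ σ' : St V} (h : Gr σ σ') {π : V → V} (hf : Fin' G σ' π) : Fin' G σ π :=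
  ⟨hf.1, fun v hv => (hf.2 v (h.SD hv)).trans (h.pi v hv)⟩

/-- LENS after drawing a phase (i): every vertex of the old cell which is now drawn has a route in the drawn set to a
vertex `e` outside of the old cell. -/
theorem lens_draw {σ σ' : St V} (h : Gr σ σ') (hch : Ch G σ'.pi) {D D' : Set V} {s : ℕ} (hL : LENS G σ D s)
    (hin : ∀ v ∈ D, G.inn v) (hD' : ∀ v ∈ D', v ∉ σ'.S) (h1 : D' ⊆ D) (h2 : ∀ v ∈ D, v ∉ σ'.S → v ∈ D')
    (h3 : ∀ v ∈ D, v ∈ σ'.S → ∃ e, e ∉ D ∧ Orb σ'.pi v e ∧ ∀ u, Orb σ'.pi v u → G.t u < G.t e → u ∈ σ'.S) :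
    LENS G σ' D' s := by
  intro τ hτ x z x' w π π' hf hf' hx hz hx' r1 r2 p p'
  have hzD := hL τ hτ x z x' w π π' (h.fin hf) (h.fin hf') hx hz hx' r1 r2 (pd_mono h1 p) (pd_mono h1 p')
  refine h2 z hzD fun hzS => ?_
  obtain ⟨e, e1, e2, e3⟩ := h3 z hzD hzS
  have hw : G.inn w := hin w (h1 (pd_mem p))
  have hwN : G.t w ≤ G.N := (G.t_in w hw.1 hw.2).le
  have hte : τ ≤ G.t e := hz.2.trans (orb_t hch e2)
  by_cases hc : ∃ i, τ ≤ i ∧ i ≤ G.t w ∧ host G σ'.pi z i = e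
  · obtain ⟨i, i1, i2, i3⟩ := hc
    have hwi : ∀ j, τ ≤ j → j ≤ i → host G σ'.pi z j ∉ D' := by
      intro j j1 j2 j3
      have j4 : G.t (host G σ'.pi z j) ≤ G.t e := by
        rw [← i3, ← host_add hch (u := z) (hz.1.trans j1) j2 (i2.trans hwN)]
        exact orb_t hch (host_orb _ _ _ _)
      rcases j4.lt_or_eq with j5 | j5
      · exact hD' _ j3 (e3 _ (host_orb _ _ _ _) j5)
      · rw [G.t_inj j5] at j3
        exact e1 (h1 j3)
    obtain ⟨k1, k2⟩ := stays hf.1 hf'.1 hch hw hx hz hx' r1 r2 p p' i1 i2 hwi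
    rw [i3] at k1 k2
    have hwp : G.t (host G π x i) ≤ G.t w := host_t_le hf.1 p.1 hw (hx.1.trans i1) i2
    have hwp' : G.t (host G π' x' i) ≤ G.t w := host_t_le hf'.1 p'.1 hw (hx'.1.trans i1) i2
    refine e1 (hL i (hτ.trans_le i1) _ e _ w π π' (h.fin hf) (h.fin hf')
      (host_al hf.1 (hx.1.trans i1) (i2.trans hwN)) ?_ (host_al hf'.1 (hx'.1.trans i1) (i2.trans hwN)) k1 k2
      (pd_mono h1 (pd_tail hf.1 p (host_orb _ _ _ _) hwp)) (pd_mono h1 (pd_tail hf'.1 p' (host_orb _ _ _ _) hwp')))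
    rw [← i3]
    exact host_al hch (hz.1.trans i1) (i2.trans hwN)
  · push Not at hc
    refine not_between hf.1 hf'.1 hch hw hx hz hx' r1 r2 p p' fun i i1 i2 i3 => ?_
    refine hD' _ i3 (e3 _ (host_orb _ _ _ _) ?_)
    by_contra hcon
    rcases (not_lt.1 hcon).lt_or_eq with h4 | h4
    · -- the host is after `e`
      have h5 : G.t e < i := by
        by_contra h6
        rw [not_lt] at h6
        have h7 : host G σ'.pi z i = host G σ'.pi z i := rfl
        have h8 := host_add hch (u := z) (hz.1.trans i1) h6 (by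
          rcases Nat.lt_or_ge G.N (G.t e) with h9 | h9
          · exfalso
            have hinn : G.inn (host G σ'.pi z i) := hin _ (h1 i3)
            have := G.t_in _ hinn.1 hinn.2
            omega
          · exact h9)
        have h9 : G.inn e := by
          have hinn : G.inn (host G σ'.pi z i) := hin _ (h1 i3)
          have h10 := G.t_in _ hinn.1 hinn.2
          constructor
          · intro h11
            rw [h11] at h4
            have := G.t_bot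
            omega
          · intro h11
            rw [h11] at h4
            have := G.t_top
            omega
        rw [host_t hch e2 h9] at h8
        have h10 := host_orb G σ'.pi (host G σ'.pi z i) (G.t e)
        rw [h8] at h10
        exact absurd (orb_t hch h10) (not_le.2 h4)
      refine hc (G.t e) hte (h5.le.trans i2) (host_t hch e2 ?_)
      constructor
      · intro h11
        rw [h11] at h5
        have := G.t_bot
        omega
      · intro h11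
        rw [h11] at h5
        have := G.t_top
        omega
    · exact hc i i1 i2 (G.t_inj h4.symm)

/-! ### Paths and areas -/

section area

variable {π₀ : V → V} (hπ₀ : Ch G π₀) {z₀ : V} {tl : ℕ} (hN : tl ≤ G.N)

include hπ₀ hN

/-- Vertices of the phase. -/
theorem phase_S {S : Set V} (hS : ∀ τ ≤ tl, host G π₀ z₀ τ ∈ S) {c : ℕ} (hc : c ≤ tl) {v : V} (hv : Orb π₀ z₀ v)
    (ht : G.t v ≤ G.t (host G π₀ z₀ c)) (hbz : G.b z₀ ≤ c) : v ∈ S := by
  rcases Nat.lt_or_ge (G.t v) c with h1 | h1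
  · have h2 := hS (G.t v) (h1.le.trans hc)
    have hv' : G.inn v := G.inn_of_t h1 (hc.trans hN)
    rwa [host_t hπ₀ hv hv'] at h2
  · have h3 := orb_comp hπ₀ hv (host_orb G π₀ z₀ c) ht
    by_cases h4 : G.inn v
    · have h5 := host_add hπ₀ (u := z₀) hbz h1 (G.t_in v h4.1 h4.2).le
      rw [host_t hπ₀ hv h4] at h5
      have h6 := host_orb G π₀ (host G π₀ z₀ c) (G.t v)
      rw [h5] at h6
      have h7 : v = host G π₀ z₀ c := G.t_inj (le_antisymm (orb_t hπ₀ h3) (orb_t hπ₀ h6))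
      rw [h7]
      exact hS c hc
    · have hfix : ∀ u, Orb π₀ v u → u = v := by
        rintro u ⟨k, rfl⟩
        have h5 : π₀ v = v := by
          have h6 : v = G.bot ∨ v = G.top := by
            by_contra h7
            push Not at h7
            exact h4 h7
          rcases h6 with h6 | h6
          · rw [h6]; exact hπ₀.1
          · rw [h6]; exact hπ₀.2.1
        exact Function.iterate_fixed h5 k
      rw [← hfix _ h3]
      exact hS c hc

/-- Backwards along a path which avoids the phase. -/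
theorem ar_back {S : Set V} (hS : ∀ τ ≤ tl, host G π₀ z₀ τ ∈ S) {y : V} {a c : ℕ} {D : Set V} (hO : ∀ v ∈ D, v ∉ S)
    (hin : ∀ v ∈ D, G.inn v) {ρ : V → V}
    (hρ : Ch G ρ) {x w : V} (p : PD G D ρ x w) (hA : Ar G π₀ z₀ tl y a c w) : Ar G π₀ z₀ tl y a c x := by
  obtain ⟨k, hk⟩ := p.1
  induction k generalizing x with
  | zero =>
    have : x = w := hk
    rw [this]
    exact hA
  | succ n ih =>
    rw [Function.iterate_succ_apply] at hk
    have h1 : Orb ρ (ρ x) w := ⟨n, hk⟩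
    have h2 : PD G D ρ (ρ x) w := ⟨h1, fun v h3 h4 => p.2 v (orb_trans ⟨1, rfl⟩ h3) h4⟩
    have h3 := ih h2 hk
    have hx := pd_start hρ p
    refine h3.back hπ₀ hN hρ (hin x hx) (fun hO' => hO x hx ?_) rfl
    obtain ⟨_, _, k2, _⟩ := hA.p0 hπ₀ hN
    have hc := hA.2.2.1.2.1
    have ha := hA.2.2.1.1
    refine phase_S hπ₀ hN hS hc hO' ?_ ((G.bt z₀).trans ha.le)
    have h5 := orb_t hρ p.1
    have h6 := (host_al hπ₀ ((G.bt z₀).trans ha.le) (hc.trans hN)).2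
    omega

/-- Forwards along a path which avoids the phase and never steps on the barrier. -/
theorem ar_fwd {S : Set V} (hS : ∀ τ ≤ tl, host G π₀ z₀ τ ∈ S) {y : V} {a c : ℕ} {D : Set V} (hO : ∀ v ∈ D, v ∉ S)
    {ρ : V → V} (hρ : Ch G ρ)
    (hne : ∀ v ∈ D, Ar G π₀ z₀ tl y a c v → ρ v ≠ y) {x w : V} (p : PD G D ρ x w) (hA : Ar G π₀ z₀ tl y a c x) :
    Ar G π₀ z₀ tl y a c w := by
  obtain ⟨k, hk⟩ := p.1
  induction k generalizing x with
  | zero =>
    have : x = w := hk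
    rw [← this]
    exact hA
  | succ n ih =>
    rw [Function.iterate_succ_apply] at hk
    have h1 : Orb ρ (ρ x) w := ⟨n, hk⟩
    have h2 : PD G D ρ (ρ x) w := ⟨h1, fun v h3 h4 => p.2 v (orb_trans ⟨1, rfl⟩ h3) h4⟩
    have hx := pd_start hρ p
    rcases hA.fwd hπ₀ hN hρ (hne x hx hA) with h3 | h3
    · exact ih h2 h3 hk
    · exact absurd (phase_S hπ₀ hN hS hA.2.2.1.2.1 h3.1 h3.2 ((G.bt z₀).trans hA.2.2.1.1.le))
        (hO _ (pd_start hρ h2))

/-- LENS (ii), one side: both paths end in the area, so everything between is in the area. -/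
theorem lens_two {S : Set V} (hS : ∀ τ ≤ tl, host G π₀ z₀ τ ∈ S) {y : V} {a c : ℕ} {D : Set V}
    (hO : ∀ v ∈ D, v ∉ S) (hin : ∀ v ∈ D, G.inn v) {ρ ρ' : V → V}
    (hρ : Ch G ρ) (hρ' : Ch G ρ') {x z x' w : V} {τ : ℕ} (p : PD G D ρ x w) (p' : PD G D ρ' x' w)
    (hA : Ar G π₀ z₀ tl y a c w) (hx : G.al x τ) (hz : G.al z τ) (hx' : G.al x' τ) (h1 : G.r x < G.r z)
    (h2 : G.r z < G.r x') : Ar G π₀ z₀ tl y a c z := by
  have hAx := ar_back hπ₀ hN hS hO hin hρ p hA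
  have hAx' := ar_back hπ₀ hN hS hO hin hρ' p' hA
  obtain ⟨_, k1, k2, k3⟩ := hAx.p0 hπ₀ hN
  obtain ⟨_, _, _, k3'⟩ := hAx'.p0 hπ₀ hN
  obtain ⟨_, _, m2, _⟩ := hA.p0 hπ₀ hN
  have hc := hA.2.2.1.2.1
  rcases between hπ₀ hN hAx.2.1 hAx.2.2.1 (k1.le.trans hx.1) (hx.2.trans k2.le) hz ((k3 τ hx).1.trans h1)
    (h2.trans (k3' τ hx').2) with h3 | h3
  · exact h3
  · exfalso
    refine not_between hρ hρ' hπ₀ (hin w (pd_mem p)) hx hz hx' h1 h2 p p' fun i i1 i2 i3 => hO _ i3 ?_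
    rcases Nat.lt_or_ge (G.t z) i with h4 | h4
    · rw [← host_eq_of_orb hπ₀ h3.1 h4.le ((i2.trans m2.le).trans (hc.trans hN))]
      exact hS i ((i2.trans m2.le).trans hc)
    · rw [host_self hπ₀ h4]
      exact phase_S hπ₀ hN hS hc h3.1 h3.2 ((G.bt z₀).trans hA.2.2.1.1.le)

/-- LENS (iv), one side: an area vertex between two vertices outside of the areas; then the host is between them. -/
theorem lens_four {S : Set V} (hS : ∀ τ ≤ tl, host G π₀ z₀ τ ∈ S) {y : V} {a c : ℕ} {x z : V} {τ : ℕ}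
    (hA : Ar G π₀ z₀ tl y a c z) (hx : G.al x τ) (hz : G.al z τ)
    (h1 : G.r x < G.r z) (hxA : ¬ Ar G π₀ z₀ tl y a c x) (hxO : x ∉ S) :
    host G π₀ z₀ τ ∈ S ∧ G.al (host G π₀ z₀ τ) τ ∧ G.r x < G.r (host G π₀ z₀ τ) ∧
      G.r (host G π₀ z₀ τ) < G.r z := by
  obtain ⟨_, k1, k2, k3⟩ := hA.p0 hπ₀ hN
  obtain ⟨_, ha, hc, _⟩ := hA
  have hcN : c ≤ G.N := hc.2.1.trans hN
  have haτ : a ≤ τ := k1.le.trans hz.1
  have hτc : τ ≤ c := hz.2.trans k2.le
  refine ⟨hS τ (hτc.trans hc.2.1), host_al hπ₀ (((G.bt z₀).trans ha.1.le).trans haτ) (hτc.trans hcN), ?_,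
    (k3 τ hz).1⟩
  by_contra hcon
  rcases (not_lt.1 hcon).lt_or_eq with h2 | h2
  · rcases between hπ₀ hN ha hc haτ hτc hx h2 (h1.trans (k3 τ hz).2) with h3 | h3
    · exact hxA h3
    · exact hxO (phase_S hπ₀ hN hS hc.2.1 h3.1 h3.2 ((G.bt z₀).trans hc.1.le))
  · apply hxO
    rw [← G.r_inj h2]
    exact hS τ (hτc.trans hc.2.1)

end area

/-! ### The relabelling step -/

/-- One phase: route of `z` up to `tl` (drawn); the new declarations are in its areas, and every area vertex below the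
barrier is declared. -/
structure RelH (G : Bars V) (σ σ' : St V) (z : V) (tl : ℕ) : Prop where
  bot : G.bot ∈ σ.S
  top : G.top ∈ σ.S
  ch : Ch G σ.pi
  S : σ'.S = σ.S
  sub : σ.Dec ⊆ σ'.Dec
  pi : ∀ v ∈ σ.S ∪ σ.Dec, σ'.pi v = σ.pi v
  new : ∀ u ∈ σ'.Dec, u ∉ σ.S → u ∉ σ.Dec → Area G σ.pi z tl u
  ph : ∀ τ ≤ tl, host G σ.pi z τ ∈ σ.S
  tN : tl ≤ G.N
  decD : ∀ y a c u, Ar G σ.pi z tl y a c u → G.up u = y → u ∈ σ'.Dec ∧ σ'.pi u = G.lo u
  decU : ∀ y a c u, Ar G.mir σ.pi z tl y a c u → G.lo u = y → u ∈ σ'.Dec ∧ σ'.pi u = G.up u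
  out : ∀ u, Area G σ.pi z tl u → u ∉ σ.S

namespace RelH

variable {σ σ' : St V} {z : V} {tl : ℕ}

theorem inn (h : RelH G σ σ' z tl) {v : V} (hv : v ∉ σ.S) : G.inn v :=
  ⟨fun e => hv (e ▸ h.bot), fun e => hv (e ▸ h.top)⟩

theorem gr (h : RelH G σ σ' z tl) : Gr σ σ' where
  S := by rw [h.S]
  SD := by
    rw [h.S]
    exact Set.union_subset_union_right _ h.sub
  pi := h.pi

/-- An area vertex does not step on its barrier. -/
theorem neD (h : RelH G σ σ' z tl) {y : V} {a c : ℕ} {v : V}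
    (hA : Ar G σ.pi z tl y a c v) {ρ : V → V} (hρ : Fin' G σ' ρ) : ρ v ≠ y := by
  intro e
  obtain ⟨_, k1, k2, k3⟩ := hA.p0 h.ch h.tN
  have hv : G.inn v := h.inn (h.out v (Or.inl ⟨y, a, c, hA⟩))
  have h2 := (k3 _ ⟨G.bt v, le_rfl⟩).2
  rcases hρ.1.2.2 v hv with h3 | h3
  · have h4 := r_lo G hv
    rw [← h3, e] at h4
    exact lt_asymm h2 h4
  · obtain ⟨h5, h6⟩ := h.decD y a c v hA (by rw [← h3, e])
    rw [hρ.2 v (Or.inr h5), h6] at e
    have h4 := r_lo G hv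
    rw [e] at h4
    exact lt_asymm h2 h4

theorem neU (h : RelH G σ σ' z tl) {y : V} {a c : ℕ} {v : V}
    (hA : Ar G.mir σ.pi z tl y a c v) {ρ : V → V} (hρ : Fin' G σ' ρ) : ρ v ≠ y := by
  intro e
  obtain ⟨_, k1, k2, k3⟩ := hA.p0 (G := G.mir) h.ch.mir25 h.tN
  have hv : G.inn v := h.inn (h.out v (Or.inr ⟨y, a, c, hA⟩))
  have h2 := (k3 _ ⟨G.bt v, le_rfl⟩).2
  have h2' : G.r y < G.r v := by
    have h3 : G.M - G.r v < G.M - G.r y := h2
    omega
  rcases hρ.1.2.2 v hv with h3 | h3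
  · obtain ⟨h5, h6⟩ := h.decU y a c v hA (by rw [← h3, e])
    rw [hρ.2 v (Or.inr h5), h6] at e
    have h4 := r_up G hv
    rw [e] at h4
    exact lt_asymm h2' h4
  · have h4 := r_up G hv
    rw [← h3, e] at h4
    exact lt_asymm h2' h4

/-- A path which meets an area ends in it. -/
theorem meets (h : RelH G σ σ' z tl) {D : Set V} (hD : ∀ v ∈ D, v ∉ σ.S)
    {ρ : V → V} (hρ : Fin' G σ' ρ) {x v w : V} (p : PD G D ρ x w) (hv : Orb ρ x v) (ht : G.t v ≤ G.t w)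
    (hA : Area G σ.pi z tl v) :
    (∃ y a c, Ar G σ.pi z tl y a c w) ∨ ∃ y a c, Ar G.mir σ.pi z tl y a c w := by
  rcases hA with ⟨y, a, c, hA⟩ | ⟨y, a, c, hA⟩
  · exact Or.inl ⟨y, a, c, ar_fwd h.ch h.tN h.ph hD hρ.1 (fun u _ hu => h.neD hu hρ) (pd_tail hρ.1 p hv ht) hA⟩
  · refine Or.inr ⟨y, a, c, ?_⟩
    exact ar_fwd (G := G.mir) h.ch.mir25 h.tN h.ph hD hρ.1.mir25 (fun u _ hu => h.neU hu hρ)
      (pd_tail hρ.1 p hv ht) hA

/-- A path which ends outside of the areas does not meet them, and neither does its continuation by one step. -/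
theorem never (h : RelH G σ σ' z tl) {D : Set V} (hD : ∀ v ∈ D, v ∉ σ.S)
    {ρ : V → V} (hρ : Ch G ρ) {x w : V} (p : PD G D ρ x w) (hx : ¬ Area G σ.pi z tl x) :
    ¬ Area G σ.pi z tl w := by
  intro hA
  apply hx
  have hin : ∀ v ∈ D, G.inn v := fun v hv => h.inn (hD v hv)
  rcases hA with ⟨y, a, c, hA⟩ | ⟨y, a, c, hA⟩
  · exact Or.inl ⟨y, a, c, ar_back h.ch h.tN h.ph hD hin hρ p hA⟩
  · exact Or.inr ⟨y, a, c, ar_back (G := G.mir) h.ch.mir25 h.tN h.ph hD (fun v hv => G.mir_inn.2 (hin v hv))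
      hρ.mir25 p hA⟩

/-- LENS (ii): the cell of the phase after the relabelling. -/
theorem lens_self (h : RelH G σ σ' z tl) {D D' : Set V} {s : ℕ}
    (hL : LENS G σ D s) (hD' : ∀ v, v ∈ D' ↔ v ∈ D ∨ Area G σ.pi z tl v) (hD : ∀ v ∈ D, v ∉ σ.S) :
    LENS G σ' D' s := by
  have hDS : ∀ v ∈ D', v ∉ σ.S := fun v hv => ((hD' v).1 hv).elim (hD v) (h.out v)
  have hin : ∀ v ∈ D', G.inn v := fun v hv => h.inn (hDS v hv)
  intro τ hτ x u x' w π π' hf hf' hx hz hx' r1 r2 p p'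
  by_cases hm : (∃ v, Orb π x v ∧ G.t v ≤ G.t w ∧ Area G σ.pi z tl v) ∨
      ∃ v, Orb π' x' v ∧ G.t v ≤ G.t w ∧ Area G σ.pi z tl v
  · have hm' : (∃ y a c, Ar G σ.pi z tl y a c w) ∨ ∃ y a c, Ar G.mir σ.pi z tl y a c w := by
      rcases hm with ⟨v, v1, v2, v3⟩ | ⟨v, v1, v2, v3⟩
      · exact h.meets hDS hf p v1 v2 v3
      · exact h.meets hDS hf' p' v1 v2 v3
    refine (hD' u).2 (Or.inr ?_)
    rcases hm' with ⟨y, a, c, hA⟩ | ⟨y, a, c, hA⟩
    · exact Or.inl ⟨y, a, c, lens_two h.ch h.tN h.ph hDS hin hf.1 hf'.1 p p' hA hx hz hx' r1 r2⟩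
    · refine Or.inr ⟨y, a, c, ?_⟩
      have hlt : ∀ {u v : V}, G.r u < G.r v → G.mir.r v < G.mir.r u := by
        intro u v huv
        have h1 := G.r_le v
        show G.M - G.r v < G.M - G.r u
        omega
      exact lens_two (G := G.mir) h.ch.mir25 h.tN h.ph hDS (fun v hv => G.mir_inn.2 (hin v hv)) hf'.1.mir25
        hf.1.mir25 p' p hA hx' hz hx (hlt r2) (hlt r1)
  · rw [not_or] at hm
    refine (hD' u).2 (Or.inl ?_)
    refine hL τ hτ x u x' w π π' (h.gr.fin hf) (h.gr.fin hf') hx hz hx' r1 r2 ⟨p.1, fun v v1 v2 => ?_⟩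
      ⟨p'.1, fun v v1 v2 => ?_⟩
    · rcases (hD' v).1 (p.2 v v1 v2) with h3 | h3
      · exact h3
      · exact absurd ⟨v, v1, v2, h3⟩ hm.1
    · rcases (hD' v).1 (p'.2 v v1 v2) with h3 | h3
      · exact h3
      · exact absurd ⟨v, v1, v2, h3⟩ hm.2

/-- LENS (iv): the other cells lose the areas. -/
theorem lens_other (h : RelH G σ σ' z tl) {D D' : Set V} {s : ℕ}
    (hL : LENS G σ D s) (hD' : ∀ v, v ∈ D' ↔ v ∈ D ∧ ¬ Area G σ.pi z tl v) (hD : ∀ v ∈ D, v ∉ σ.S) :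
    LENS G σ' D' s := by
  have hDS : ∀ v ∈ D', v ∉ σ.S := fun v hv => hD v ((hD' v).1 hv).1
  have hsub : D' ⊆ D := fun v hv => ((hD' v).1 hv).1
  intro τ hτ x u x' w π π' hf hf' hx hz hx' r1 r2 p p'
  refine (hD' u).2 ⟨hL τ hτ x u x' w π π' (h.gr.fin hf) (h.gr.fin hf') hx hz hx' r1 r2 (pd_mono hsub p)
    (pd_mono hsub p'), fun hA => ?_⟩
  have hxD := pd_start hf.1 p
  have hxD' := pd_start hf'.1 p'
  rcases hA with ⟨y, a, c, hA⟩ | ⟨y, a, c, hA⟩
  · obtain ⟨k0, k1, k2, k3⟩ := lens_four h.ch h.tN h.ph hA hx hz r1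
      (fun hc => ((hD' x).1 hxD).2 (Or.inl ⟨y, a, c, hc⟩)) (hDS x hxD)
    exact hD _ (hL τ hτ x _ x' w π π' (h.gr.fin hf) (h.gr.fin hf') hx k1 hx' k2 (k3.trans r2) (pd_mono hsub p)
      (pd_mono hsub p')) k0
  · have hlt : ∀ {u v : V}, G.r u < G.r v → G.mir.r v < G.mir.r u := by
      intro u v huv
      have h1 := G.r_le v
      show G.M - G.r v < G.M - G.r u
      omega
    obtain ⟨k0, k1, k2, k3⟩ := lens_four (G := G.mir) h.ch.mir25 h.tN h.ph hA hx' hz (hlt r2)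
      (fun hc => ((hD' x').1 hxD').2 (Or.inr ⟨y, a, c, hc⟩)) (hDS x' hxD')
    have k2' : G.r (host G σ.pi z τ) < G.r x' := by
      have h3 : G.M - G.r x' < G.M - G.r (host G σ.pi z τ) := k2
      omega
    have k3' : G.r u < G.r (host G σ.pi z τ) := by
      have h3 : G.M - G.r (host G σ.pi z τ) < G.M - G.r u := k3
      omega
    exact hD _ (hL τ hτ x _ x' w π π' (h.gr.fin hf) (h.gr.fin hf') hx k1 hx' (r1.trans k3') k2' (pd_mono hsub p)
      (pd_mono hsub p')) k0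

end RelH

end Pool.Agent.W_a4f561_h33
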