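import Pool.Agent.W_a4f561_h33.Sl33
import Pool.Agent.W_a4f561_h1.Def

/-!
MP_a4f561_co, polylog: LENS and the strong lens after drawing a phase and relabelling its areas, on `W_a4f561_h1.Def`
(helper33).
-/

set_option autoImplicit false

namespace Pool.Agent.W_a4f561_h33

open Pool.Agent.W_a4f561_h26
open Pool.Agent.W_a4f561_P73
open Pool.Agent.W_a4f561_P25 (Tc Ar Area)
open Pool.Agent.W_a4f561_P97 (RP)
open Pool.Agent.W_a4f561_h1

variable {V : Type} {G : Bars V}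

/-- Two choice functions which agree on a route before `e`. -/
theorem orb_transfer {π π' : V → V} (hπ : Ch G π) (hπ' : Ch G π') {v e : V} (h : Orb π v e)
    (hag : ∀ u, Orb π v u → G.t u < G.t e → π' u = π u) :
    Orb π' v e ∧ ∀ u, Orb π' v u → G.t u < G.t e → Orb π v u := by
  obtain ⟨k, hk⟩ := h
  have base : ∀ v : V, v = e → Orb π' v e ∧ ∀ u, Orb π' v u → G.t u < G.t e → Orb π v u := by
    rintro v rfl
    exact ⟨orb_refl _ _, fun u h1 h2 => absurd (orb_t hπ' h1) (not_le.2 h2)⟩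
  induction k generalizing v with
  | zero => exact base v hk
  | succ n ih =>
    rw [Function.iterate_succ_apply] at hk
    have h1 : Orb π (π v) e := ⟨n, hk⟩
    have h2 : G.t v ≤ G.t e := orb_t hπ (orb_trans ⟨1, rfl⟩ h1)
    rcases h2.lt_or_eq with h3 | h3
    · have h4 := hag v (orb_refl _ _) h3
      obtain ⟨h5, h6⟩ := ih (fun u h7 h8 => hag u (orb_trans ⟨1, rfl⟩ h7) h8) hk
      refine ⟨?_, fun u h7 h8 => ?_⟩
      · refine orb_trans ⟨1, rfl⟩ (?_ : Orb π' (π'^[1] v) e)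
        show Orb π' (π' v) e
        rw [h4]
        exact h5
      · obtain ⟨m, rfl⟩ := h7
        cases m with
        | zero => exact orb_refl _ _
        | succ m =>
          rw [Function.iterate_succ_apply, h4] at h8 ⊢
          exact orb_trans ⟨1, rfl⟩ (h6 _ ⟨m, rfl⟩ h8)
    · exact base v (G.t_inj h3)

/-- The state with the phase drawn but without the new declarations. -/
def mid (σ σ1 : St V) : St V := { σ1 with Dec := σ.Dec }

section phase

variable {σ σ1 : St V} {D : Set V} {ω : V × Bool → Bool} {z e vl : V}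

/-- The phase ends at `vl`. -/
theorem bp_t_le (hch : Ch G (law G σ ω)) (hx : Exi D G (law G σ ω) z e) (h : Dr1 G σ D ω z e vl σ1) {v : V}
    (hv : v ∈ Bp G σ D ω z) : G.t v ≤ G.t vl := by
  by_contra hc
  rw [not_le] at hc
  have h1 : Orb (law G σ ω) vl v := orb_comp hch h.vlB.1 hv.1 hc.le
  obtain ⟨k, hk⟩ := h1
  cases k with
  | zero =>
    have : vl = v := hk
    rw [this] at hc
    exact lt_irrefl _ hc
  | succ n =>
    rw [Function.iterate_succ_apply, h.vle] at hk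
    have h2 : Orb (law G σ ω) e v := ⟨n, hk⟩
    exact hx.2.1 (hv.2 e hx.1 (orb_t hch h2))

theorem bp_init {v u : V} (hv : v ∈ Bp G σ D ω z) (hu : Orb (law G σ ω) z u)
    (ht : G.t u ≤ G.t v) : u ∈ Bp G σ D ω z := pd_init hv hu ht

variable (hD : ∀ v ∈ D, G.inn v)

include hD

/-- The hosts of the law up to `t vl` are on the phase. -/
theorem bp_host (hch : Ch G (law G σ ω)) (h : Dr1 G σ D ω z e vl σ1) {τ : ℕ} (hτ : τ ≤ G.t vl) :
    host G (law G σ ω) z τ ∈ Bp G σ D ω z := by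
  rcases Nat.lt_or_ge (G.t z) τ with h1 | h1
  · exact pd_init h.vlB (host_orb _ _ _ _) (host_t_le hch h.vlB.1 (hD _ (pd_mem h.vlB)) ((G.bt z).trans h1.le) hτ)
  · rw [host_self hch h1]
    exact pd_init h.vlB (orb_refl _ _) (orb_t hch h.vlB.1)

theorem dr_host (hch : Ch G (law G σ ω)) (h : Dr1 G σ D ω z e vl σ1) {τ : ℕ} (hτ : τ ≤ G.t vl) :
    host G σ1.pi z τ = host G (law G σ ω) z τ :=
  host_same hch h.inv.ch (G.t_in vl (hD _ (pd_mem h.vlB)).1 (hD _ (pd_mem h.vlB)).2).le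
    (fun τ h1 => h.piB _ (bp_host hD hch h h1.le)) hτ

/-- The vertices of the phase in the new choice function. -/
theorem bp_iff (hch : Ch G (law G σ ω)) (hx : Exi D G (law G σ ω) z e) (h : Dr1 G σ D ω z e vl σ1) {v : V} :
    v ∈ Bp G σ D ω z ↔ Orb σ1.pi z v ∧ G.t v ≤ G.t vl := by
  have hvl := hD _ (pd_mem h.vlB)
  have hN : G.t vl ≤ G.N := (G.t_in vl hvl.1 hvl.2).le
  constructor
  · intro hv
    have h1 := bp_t_le hch hx h hv
    refine ⟨?_, h1⟩
    have h2 := dr_host hD hch h h1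
    rw [orb_host hch hv.1 hN h1] at h2
    rw [← h2]
    exact host_orb _ _ _ _
  · rintro ⟨h1, h2⟩
    have h3 := dr_host hD hch h h2
    rw [orb_host h.inv.ch h1 hN h2] at h3
    rw [h3]
    exact bp_host hD hch h h2

/-- The phase satisfies the hypotheses of the relabelling step. -/
theorem relH_dr (hch : Ch G (law G σ ω)) (h : Dr1 G σ D ω z e vl σ1) :
    RelH G (mid σ σ1) σ1 z (G.t vl) where
  bot := h.inv.bot_mem
  top := h.inv.top_mem
  ch := h.inv.ch
  S := rfl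
  sub := h.Dec
  pi := fun _ _ => rfl
  new := fun u h1 _ h3 => (h.decN u h1 h3).2
  ph := fun τ hτ => by
    show host G σ1.pi z τ ∈ σ1.S
    rw [dr_host hD hch h hτ]
    exact (h.S _).2 (Or.inr (bp_host hD hch h hτ))
  tN := (G.t_in vl (hD _ (pd_mem h.vlB)).1 (hD _ (pd_mem h.vlB)).2).le
  decD := fun y a c u hA hy => by
    have hvl := hD _ (pd_mem h.vlB)
    have hN : G.t vl ≤ G.N := (G.t_in vl hvl.1 hvl.2).le
    have hA' : Ar G σ1.pi z (G.t vl) y a c u := hA
    obtain ⟨hac, k1, k2, k3⟩ := hA'.p0 h.inv.ch hN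
    have huS : u ∉ σ1.S := fun h1 => h.noS u h1 (Or.inl ⟨y, a, c, hA'⟩)
    have hui : G.inn u := ⟨fun e1 => huS (e1 ▸ h.inv.bot_mem), fun e1 => huS (e1 ▸ h.inv.top_mem)⟩
    obtain ⟨R, hR, e1, e2, e3, e4⟩ := h.exD y a c hac.le hA'.2.1 hA'.2.2.1
    have hb := (G.bt u)
    obtain ⟨h5, h6⟩ := (h.inv.recD R hR).dec u hui (by omega) (by omega)
      (by rw [e1]; exact (k3 _ ⟨hb, le_rfl⟩).1) (by rw [e2]; exact hy)
    exact ⟨h5.resolve_left huS, h6⟩
  decU := fun y a c u hA hy => by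
    have hvl := hD _ (pd_mem h.vlB)
    have hN : G.t vl ≤ G.N := (G.t_in vl hvl.1 hvl.2).le
    have hA' : Ar G.mir σ1.pi z (G.t vl) y a c u := hA
    obtain ⟨hac, k1, k2, k3⟩ := hA'.p0 (G := G.mir) (ch_mir.2 h.inv.ch) hN
    have huS : u ∉ σ1.S := fun h1 => h.noS u h1 (Or.inr ⟨y, a, c, hA'⟩)
    have hui : G.inn u := ⟨fun e1 => huS (e1 ▸ h.inv.bot_mem), fun e1 => huS (e1 ▸ h.inv.top_mem)⟩
    obtain ⟨R, hR, e1, e2, e3, e4⟩ := h.exU y a c hac.le hA'.2.1 hA'.2.2.1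
    have hb := (G.bt u)
    have k1' : a < G.b u := k1
    have k2' : G.t u < c := k2
    obtain ⟨h5, h6⟩ := (h.inv.recU R hR).dec u ((inn_mir G).2 hui) (by show R.a ≤ G.t u; omega)
      (by show G.t u < R.c; omega)
      (by rw [e1]; exact (k3 _ ⟨hb, le_rfl⟩).1) (by rw [e2]; exact hy)
    rw [mir_lo'] at h6
    exact ⟨h5.resolve_left huS, h6⟩
  out := fun u hA hS => h.noS u hS hA

omit hD in
theorem gr_mid (h : Dr1 G σ D ω z e vl σ1) : Gr σ (mid σ σ1) where
  S := fun v hv => (h.S v).2 (Or.inl hv)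
  SD := Set.union_subset_union_left _ fun v hv => (h.S v).2 (Or.inl hv)
  pi := h.piO

/-- The route of a vertex of the phase leaves the phase at `e`. -/
theorem bp_exit (hch : Ch G (law G σ ω)) (hx : Exi D G (law G σ ω) z e) (h : Dr1 G σ D ω z e vl σ1) {v : V}
    (hv : v ∈ Bp G σ D ω z) : Orb σ1.pi v e ∧ ∀ u, Orb σ1.pi v u → G.t u < G.t e → u ∈ Bp G σ D ω z := by
  have hvl := hD _ (pd_mem h.vlB)
  have h0 : G.t vl < G.t e := by
    have h1 : Orb (law G σ ω) vl e := ⟨1, h.vle⟩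
    rcases (orb_t hch h1).lt_or_eq with h2 | h2
    · exact h2
    · exact absurd (pd_mem h.vlB) (G.t_inj h2 ▸ hx.2.1)
  have hve : Orb (law G σ ω) v e := orb_comp hch hv.1 hx.1 ((bp_t_le hch hx h hv).trans h0.le)
  have hmem : ∀ u, Orb (law G σ ω) v u → G.t u < G.t e → u ∈ Bp G σ D ω z := by
    intro u h1 h2
    have h3 : Orb (law G σ ω) z u := orb_trans hv.1 h1
    refine ⟨h3, fun x h4 h5 => ?_⟩
    by_contra hc
    have h6 : G.t e ≤ G.t x := by
      by_contra h7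
      exact hc (hx.2.2 x h4 (not_le.1 h7))
    omega
  obtain ⟨h1, h2⟩ := orb_transfer hch h.inv.ch hve (fun u h1 h2 => h.piB u (hmem u h1 h2))
  exact ⟨h1, fun u h3 h4 => hmem u (h2 u h3 h4) h4⟩

end phase

section draw

variable [Fintype V] [DecidableEq V] {X : MS V} {σ1 : St V} {ω : V × Bool → Bool} {z e vl r : V}

theorem ch_law33 {σ : St V} {c : V} (h : WInv G σ c) (ω : V × Bool → Bool) : Ch G (law G σ ω) := by
  classical
  refine ⟨?_, ?_, fun v hv => ?_⟩
  · unfold law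
    rw [if_pos (show G.bot ∈ σ.S ∪ σ.Dec from Or.inl h.bot_mem)]
    exact h.ch.1
  · unfold law
    rw [if_pos (show G.top ∈ σ.S ∪ σ.Dec from Or.inl h.top_mem)]
    exact h.ch.2.1
  · unfold law
    split_ifs with h1 h2
    · exact h.ch.2.2 v hv
    · unfold Bars.zz
      split_ifs
      · exact Or.inr rfl
      · exact Or.inl rfl
    · unfold Bars.oo
      split_ifs
      · exact Or.inl rfl
      · exact Or.inr rfl

omit [Fintype V] [DecidableEq V] in
theorem D_inn {c : V} (h : WInv G X.σ c) (i : ℕ) : ∀ v ∈ X.D i, G.inn v := fun _ hv =>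
  ⟨fun e => hv.1 (e ▸ h.bot_mem), fun e => hv.1 (e ▸ h.top_mem)⟩

/-- LENS of all cells after the draw and the relabelling. -/
theorem draw_lens (hI : WInv G X.σ z) (hL : ∀ i, LENS G X.σ (X.D i) (X.s i))
    (hx : Exi (X.D (X.cell z)) G (law G X.σ ω) z e) (h : Dr1 G X.σ (X.D (X.cell z)) ω z e vl σ1) (j : ℕ) :
    LENS G σ1 ((X.draw σ1 (Bp G X.σ (X.D (X.cell z)) ω z) {u | Area G σ1.pi z (G.t vl) u} z r).D j) (X.s j) := by
  classical
  set B := Bp G X.σ (X.D (X.cell z)) ω z with hB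
  have hch := ch_law33 hI ω
  have hin := D_inn hI (X.cell z)
  have hR := relH_dr hin hch h
  have hg := gr_mid h
  have hL1 : LENS G (mid X.σ σ1) {v | v ∉ σ1.S ∧ X.cell v = j} (X.s j) := by
    refine lens_draw hg h.inv.ch (hL j) (D_inn hI j) (fun v hv => hv.1)
      (fun v hv => ⟨fun h1 => hv.1 ((h.S v).2 (Or.inl h1)), hv.2⟩) (fun v hv h1 => ⟨h1, hv.2⟩) ?_
    intro v hv h1
    have hvB : v ∈ B := ((h.S v).1 h1).resolve_left hv.1
    have hj : X.cell z = j := by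
      have := pd_mem hvB
      exact this.2.symm.trans hv.2
    obtain ⟨h2, h3⟩ := bp_exit hin hch hx h hvB
    refine ⟨e, ?_, h2, fun u h4 h5 => (h.S u).2 (Or.inr (h3 u h4 h5))⟩
    rw [← hj]
    exact hx.2.1
  have hcell : ∀ v, v ∈ (X.draw σ1 B {u | Area G σ1.pi z (G.t vl) u} z r).D j ↔
      v ∉ σ1.S ∧ (if Area G σ1.pi z (G.t vl) v then X.cell z else X.cell v) = j := by
    intro v
    rfl
  by_cases hj : X.cell z = j
  · refine hR.lens_self hL1 (fun v => ?_) (fun v hv => hv.1)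
    rw [hcell v]
    constructor
    · rintro ⟨h1, h2⟩
      by_cases h3 : Area G σ1.pi z (G.t vl) v
      · exact Or.inr h3
      · rw [if_neg h3] at h2
        exact Or.inl ⟨h1, h2⟩
    · rintro (h1 | h1)
      · refine ⟨h1.1, ?_⟩
        split_ifs
        · exact hj
        · exact h1.2
      · refine ⟨fun h2 => h.noS v h2 h1, ?_⟩
        have h2 : Area G σ1.pi z (G.t vl) v := h1
        rw [if_pos h2]
        exact hj
  · refine hR.lens_other hL1 (fun v => ?_) (fun v hv => hv.1)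
    rw [hcell v]
    constructor
    · rintro ⟨h1, h2⟩
      by_cases h3 : Area G σ1.pi z (G.t vl) v
      · rw [if_pos h3] at h2
        exact absurd h2 hj
      · rw [if_neg h3] at h2
        exact ⟨⟨h1, h2⟩, h3⟩
    · rintro ⟨h1, h2⟩
      have h3 : ¬ Area G σ1.pi z (G.t vl) v := h2
      refine ⟨h1.1, ?_⟩
      rw [if_neg h3]
      exact h1.2

/-- The strong lens of the cell of the phase after the draw. -/
theorem draw_strong (hI : WInv G X.σ z) (hL : LENS G X.σ (X.D (X.cell z)) (X.s (X.cell z)))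
    (hx : Exi (X.D (X.cell z)) G (law G X.σ ω) z e) (h : Dr1 G X.σ (X.D (X.cell z)) ω z e vl σ1) {T : ℕ}
    (hT : T ≤ G.t vl) {q u : V} {τ : ℕ}
    (hq : RP G σ1 ((X.draw σ1 (Bp G X.σ (X.D (X.cell z)) ω z) {u | Area G σ1.pi z (G.t vl) u} z r).D (X.cell z))
      {v | v ∈ Bp G X.σ (X.D (X.cell z)) ω z ∧ G.t v ≤ T} q)
    (hs : X.s (X.cell z) < τ) (hzτ : G.b z ≤ τ) (hqa : G.al q τ) (hua : G.al u τ)
    (r1 : G.r (host G σ1.pi z τ) < G.r u) (r2 : G.r u < G.r q) :
    u ∈ (X.draw σ1 (Bp G X.σ (X.D (X.cell z)) ω z) {u | Area G σ1.pi z (G.t vl) u} z r).D (X.cell z) ∨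
      (u ∈ Bp G X.σ (X.D (X.cell z)) ω z ∧ G.t u ≤ T) := by
  classical
  set B := Bp G X.σ (X.D (X.cell z)) ω z with hB
  have hch := ch_law33 hI ω
  have hin := D_inn hI (X.cell z)
  have hR := relH_dr hin hch h
  have hg := gr_mid h
  refine hR.strong (σ₀ := X.σ) hg (D₀ := X.D (X.cell z))
    (D₁ := (X.draw σ1 B {u | Area G σ1.pi z (G.t vl) u} z r).D (X.cell z)) (BS := {v | v ∈ B ∧ G.t v ≤ T}) (e := T)
    hL ?_ ?_ ?_ hT ?_ hq hs hzτ hqa hua r1 r2
  · intro τ _ hτ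
    show host G σ1.pi z τ ∈ X.D (X.cell z)
    rw [dr_host hin hch h hτ]
    exact pd_mem (bp_host hin hch h hτ)
  · intro v hv h1
    have hvB : v ∈ B := ((h.S v).1 h1).resolve_left hv.1
    exact ((bp_iff hin hch hx h).1 hvB).1
  · intro v
    show (v ∉ σ1.S ∧ (if Area G σ1.pi z (G.t vl) v then X.cell z else X.cell v) = X.cell z) ↔ _
    constructor
    · rintro ⟨h1, h2⟩
      by_cases h3 : Area G σ1.pi z (G.t vl) v
      · exact Or.inr h3
      · rw [if_neg h3] at h2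
        exact Or.inl ⟨⟨fun h4 => h1 ((h.S v).2 (Or.inl h4)), h2⟩, h1⟩
    · rintro (h1 | h1)
      · refine ⟨h1.2, ?_⟩
        split_ifs
        · rfl
        · exact h1.1.2
      · refine ⟨fun h2 => h.noS v h2 h1, ?_⟩
        have h2 : Area G σ1.pi z (G.t vl) v := h1
        rw [if_pos h2]
  · intro v
    show (v ∈ B ∧ G.t v ≤ T) ↔ _
    rw [hB, bp_iff hin hch hx h]
    constructor
    · rintro ⟨⟨h1, _⟩, h2⟩
      exact ⟨h1, h2⟩
    · rintro ⟨h1, h2⟩
      exact ⟨⟨h1, h2.trans hT⟩, h2⟩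

end draw

end Pool.Agent.W_a4f561_h33
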